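import Mathlib

namespace Pool.Agent.Results.MP_607283_al.LocallyCompact

open Function

universe u

/-- The intersection of the kernels of all ordinary representations. -/
def KO (G : Type u) [Group G] [TopologicalSpace G] : Subgroup G :=
  ⨅ (n : ℕ) (ρ : G →ₜ* GL (Fin n) ℂ), ρ.toMonoidHom.ker

/-- The discrete part. -/
def D (A : Type u) [CommGroup A] : Type u := (ℕ →₀ ℤ) × (ℕ →₀ Additive A)

variable {A : Type u} [CommGroup A]

noncomputable instance : AddCommGroup (D A) :=
  inferInstanceAs (AddCommGroup ((ℕ →₀ ℤ) × (ℕ →₀ Additive A)))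
instance : TopologicalSpace (D A) := ⊥
instance : DiscreteTopology (D A) := ⟨rfl⟩

/-- The cocycle. -/
noncomputable def c (d e : D A) : A := (d.1.sum fun i n => n • e.2 i).toMul

lemma c_add_left (d d' e : D A) : c (d + d') e = c d e * c d' e := by
  rw [c, c, c, ← toMul_add, ← Finsupp.sum_add_index' (by simp) (by simp [add_smul])]; rfl

lemma c_add_right (d e e' : D A) : c d (e + e') = c d e * c d e' := by
  rw [c, c, c, ← toMul_add, ← Finsupp.sum_add]
  congr 2; funext i n; exact smul_add n _ _

lemma c_zero_left (e : D A) : c 0 e = 1 := by simpa using c_add_left 0 0 e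
lemma c_zero_right (d : D A) : c d 0 = 1 := by simpa using c_add_right d 0 0

/-- The Heisenberg-type central extension of `D A` by `A`. -/
def H (A : Type u) [CommGroup A] : Type u := A × D A

noncomputable instance : Group (H A) where
  mul g h := (g.1 * h.1 * c g.2 h.2, g.2 + h.2)
  one := (1, 0)
  inv g := (g.1⁻¹ * (c (-g.2) g.2)⁻¹, -g.2)
  mul_assoc g h k := by
    refine Prod.ext ?_ (add_assoc _ _ _)
    show g.1 * h.1 * c g.2 h.2 * k.1 * c (g.2 + h.2) k.2 =
      g.1 * (h.1 * k.1 * c h.2 k.2) * c g.2 (h.2 + k.2)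
    rw [c_add_left, c_add_right]; ac_rfl
  one_mul g := Prod.ext (show 1 * g.1 * c 0 g.2 = g.1 by simp [c_zero_left]) (zero_add _)
  mul_one g := Prod.ext (show g.1 * 1 * c g.2 0 = g.1 by simp [c_zero_right]) (add_zero _)
  inv_mul_cancel g := by
    refine Prod.ext ?_ (neg_add_cancel _)
    show g.1⁻¹ * (c (-g.2) g.2)⁻¹ * g.1 * c (-g.2) g.2 = 1
    rw [mul_right_comm g.1⁻¹]; simp

variable [TopologicalSpace A]

instance : TopologicalSpace (H A) := inferInstanceAs (TopologicalSpace (A × D A))

instance [IsTopologicalGroup A] : IsTopologicalGroup (H A) where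
  continuous_mul := by
    have h1 : Continuous fun p : D A × D A => c p.1 p.2 := continuous_of_discreteTopology
    have h2 : Continuous fun p : D A × D A => p.1 + p.2 := continuous_of_discreteTopology
    have h3 : Continuous fun p : (A × D A) × A × D A => (p.1.2, p.2.2) := by fun_prop
    exact ((continuous_fst.fst.mul continuous_snd.fst).mul (h1.comp h3)).prodMk (h2.comp h3)
  continuous_inv := by
    have h1 : Continuous fun p : D A => (c (-p) p)⁻¹ := continuous_of_discreteTopology
    have h2 : Continuous fun p : D A => -p := continuous_of_discreteTopology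
    exact (continuous_fst.inv.mul (h1.comp continuous_snd)).prodMk (h2.comp continuous_snd)

omit [TopologicalSpace A] in
lemma kill {n : ℕ} (ρ : H A →* GL (Fin n) ℂ) (a : A) : ρ (a, 0) = 1 := by
  let X : ℕ → H A := fun i => (1, (Finsupp.single i 1, 0))
  let Y : ℕ → H A := fun i => (1, (0, Finsupp.single i (Additive.ofMul a)))
  let Z : A → H A := fun a => (a, 0)
  have hXY : ∀ i j, X i * Y j = Z (if j = i then a else 1) * (Y j * X i) := by
    intro i j
    refine Prod.ext ?_ ((add_comm _ _).trans (zero_add _).symm)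
    show 1 * 1 * c (X i).2 (Y j).2 =
      (if j = i then a else 1) * (1 * 1 * c (Y j).2 (X i).2) * c 0 _
    rw [c_zero_left]
    by_cases h : j = i <;> simp [c, X, Y, h]
  have hdep : ¬ LinearIndependent ℂ fun i => (ρ (X i) : Matrix (Fin n) (Fin n) ℂ) :=
    fun h => not_finite_iff_infinite.2 inferInstance h.finite
  rw [linearIndependent_iff_notMem_span, not_forall] at hdep
  obtain ⟨i, hi⟩ := hdep
  have h1 : (ρ (X i) : Matrix (Fin n) (Fin n) ℂ) ∈
      (Subalgebra.centralizer ℂ {(ρ (Y i) : Matrix (Fin n) (Fin n) ℂ)}).toSubmodule := by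
    refine Submodule.span_le.2 ?_ (not_not.1 hi)
    rintro _ ⟨j, hj, rfl⟩ _ rfl
    have := hXY j i
    rw [if_neg (Ne.symm hj.2)] at this
    rw [← Units.val_mul, ← Units.val_mul, ← map_mul, ← map_mul, this]
    exact congrArg _ (congrArg _ (one_mul _).symm)
  have h2 : ρ (Y i) * ρ (X i) = ρ (X i) * ρ (Y i) := Units.ext (h1 _ rfl)
  rw [← map_mul ρ (X i), hXY, if_pos rfl, map_mul, map_mul] at h2
  exact (right_eq_mul.1 h2)

/-- The character `q ↦ exp (2 π i q)` of `ℚ / ℤ`. -/
noncomputable def psi : AddCircle (1 : ℚ) →+ Additive Circle :=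
  QuotientAddGroup.lift _
    { toFun := fun q : ℚ => Additive.ofMul (Circle.exp (q * (2 * Real.pi)))
      map_zero' := by simp
      map_add' := fun p q => by simp [add_mul, Circle.exp_add] } (by
    rintro _ ⟨k, rfl⟩
    exact Circle.exp_eq_one.2 ⟨k, by simp⟩)

lemma psi_ne {x : AddCircle (1 : ℚ)} (hx : x ≠ 0) : psi x ≠ 0 := by
  induction x using QuotientAddGroup.induction_on with
  | H q =>
    intro h
    obtain ⟨k, hk⟩ := Circle.exp_eq_one.1 h
    refine hx ((QuotientAddGroup.eq_zero_iff _).2 ⟨k, ?_⟩)
    have := mul_right_cancel₀ Real.two_pi_pos.ne' hk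
    simpa using (Rat.cast_injective (α := ℝ) (this.trans (Rat.cast_intCast k).symm)).symm

lemma mem_KO (g : H A) : g ∈ KO (H A) ↔ g.2 = 0 := by
  simp only [KO, Subgroup.mem_iInf, MonoidHom.mem_ker]
  constructor
  · intro h
    by_contra hg
    obtain ⟨χ, hχ⟩ := CharacterModule.exists_character_apply_ne_zero_of_ne_zero hg
    let f : D A → GL (Fin 1) ℂ := fun d =>
      Matrix.GeneralLinearGroup.scalar (Fin 1) (Circle.toUnits (psi (χ d)).toMul)
    have := h 1
      { toFun := fun g => f g.2
        map_one' := by show f 0 = 1; simp [f]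
        map_mul' := fun g h => by show f (g.2 + h.2) = _; simp [f]
        continuous_toFun := (continuous_of_discreteTopology (f := f)).comp continuous_snd }
    have h2 := congrArg (fun m : GL (Fin 1) ℂ => (m : Matrix (Fin 1) (Fin 1) ℂ) 0 0) this
    refine psi_ne hχ (Additive.toMul.injective (Circle.ext ?_))
    simpa [f] using h2
  · intro h n ρ
    obtain ⟨a, d⟩ := g
    obtain rfl : d = 0 := h
    exact kill ρ.toMonoidHom a

theorem result (A : Type u) [CommGroup A] [TopologicalSpace A] [IsTopologicalGroup A]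
    [T2Space A] [LocallyCompactSpace A] :
    ∃ (G : Type u) (_ : Group G) (_ : TopologicalSpace G), IsTopologicalGroup G ∧ T2Space G ∧
      LocallyCompactSpace G ∧ Nonempty (KO G ≃ₜ* A) := by
  refine ⟨H A, inferInstance, inferInstance, inferInstance,
    inferInstanceAs (T2Space (A × D A)), inferInstanceAs (LocallyCompactSpace (A × D A)), ⟨?_⟩⟩
  exact
    { toFun := fun g => g.1.1
      invFun := fun a => ⟨(a, 0), (mem_KO _).2 rfl⟩
      left_inv := fun g => Subtype.ext (Prod.ext rfl ((mem_KO _).1 g.2).symm)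
      right_inv := fun a => rfl
      map_mul' := fun g h => by
        show g.1.1 * h.1.1 * c g.1.2 h.1.2 = _
        rw [(mem_KO _).1 g.2, c_zero_left, mul_one]
      continuous_toFun := continuous_fst.comp continuous_subtype_val
      continuous_invFun := (continuous_id.prodMk continuous_const).subtype_mk _ }

end Pool.Agent.Results.MP_607283_al.LocallyCompact
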